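import Pool.Agent.Y798.FC.Stm4
import Pool.Agent.Y798.FC.Vol2

/-!
# Project FC: finitely many values are inherited by the limit (FC2-TRANS)
-/

set_option autoImplicit false

namespace Pool.Agent.Y689.FC2

open Complex Filter Topology MeasureTheory UnitAddTorus NumberField IsDedekindDomain
open Pool.Agent.Y798.FC
open Pool.Agent.Y139.ID (Good good_ev wt wt_nonneg hasSum_wt avg avg_eq avg_le integrable_cont
  integrable_cont_real)

/-- A continuous function on a ball: uniform continuity with a quadratic modulus. -/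
theorem modulus {g : ℂ → ℝ} (hg : Continuous g) (C : ℝ) {η : ℝ} (hη : 0 < η) :
    ∃ M : ℝ, 0 ≤ M ∧ ∀ a b : ℂ, ‖a‖ ≤ C → ‖b‖ ≤ C → |g a - g b| ≤ η + M * ‖a - b‖ ^ 2 := by
  have hK : IsCompact (Metric.closedBall (0 : ℂ) C) := isCompact_closedBall 0 C
  have hu := hK.uniformContinuousOn_of_continuous hg.continuousOn
  rw [Metric.uniformContinuousOn_iff] at hu
  obtain ⟨δ, hδ, hd⟩ := hu η hη
  obtain ⟨G, hG⟩ := hK.exists_bound_of_continuousOn hg.continuousOn
  refine ⟨2 * |G| / δ ^ 2, by positivity, fun a b ha hb => ?_⟩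
  have ha' : a ∈ Metric.closedBall (0 : ℂ) C := by simpa using ha
  have hb' : b ∈ Metric.closedBall (0 : ℂ) C := by simpa using hb
  by_cases h : dist a b < δ
  · have := hd a ha' b hb' h
    rw [Real.dist_eq] at this
    have h2 : 0 ≤ 2 * |G| / δ ^ 2 * ‖a - b‖ ^ 2 := by positivity
    linarith
  · rw [not_lt, Complex.dist_eq] at h
    have h1 : |g a - g b| ≤ 2 * |G| := by
      have e1 : ‖g a‖ ≤ |G| := (hG a ha').trans (le_abs_self G)
      have e2 : ‖g b‖ ≤ |G| := (hG b hb').trans (le_abs_self G)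
      have e3 := norm_sub_le (g a) (g b)
      rw [Real.norm_eq_abs] at e3
      linarith
    have h2 : 2 * |G| ≤ 2 * |G| / δ ^ 2 * ‖a - b‖ ^ 2 := by
      rw [div_mul_eq_mul_div, le_div_iff₀ (by positivity)]
      have : δ ^ 2 ≤ ‖a - b‖ ^ 2 := pow_le_pow_left₀ hδ.le h 2
      exact mul_le_mul_of_nonneg_left this (by positivity)
    linarith

section
variable {K : Type} [Field K] [NumberField K]

/-- If `φ ≤ η + M ψ` with `φ, ψ` bounded then the same holds for the means. -/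
theorem cE_dom {ε : ℝ} (hε : Good K ε) {φ ψ : HeightOneSpectrum (𝓞 K) → ℝ} {B1 B2 η M : ℝ}
    (h0 : ∀ v, 0 ≤ φ v) (h1 : ∀ v, φ v ≤ B1) (h2 : ∀ v, |ψ v| ≤ B2)
    (h : ∀ v, φ v ≤ η + M * ψ v) :
    ‖cE (fun v => (φ v : ℂ)) ε‖ ≤ η + M * (cE (fun v => (ψ v : ℂ)) ε).re := by
  have hφ : ∀ v, ‖(φ v : ℂ)‖ ≤ B1 := fun v => by
    rw [Complex.norm_real, Real.norm_eq_abs, abs_of_nonneg (h0 v)]
    exact h1 v
  have hψ : ∀ v, ‖(ψ v : ℂ)‖ ≤ B2 := fun v => by
    rw [Complex.norm_real, Real.norm_eq_abs]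
    exact h2 v
  refine (norm_cE_le' hε hφ).trans ?_
  rw [cE_re hε (t := fun v => (‖(φ v : ℂ)‖ : ℂ)) (B := B1) (fun v => by
    rw [Complex.norm_real, norm_norm]; exact hφ v), cE_re hε hψ, avg_eq, avg_eq]
  simp only [Complex.ofReal_re]
  have s1 := summ_norm hε (t := fun v => ‖(φ v : ℂ)‖) (B := B1) fun v => by
    rw [abs_norm]; exact hφ v
  have s2 := summ_norm hε (t := ψ) (B := B2) h2
  have s3 := (hasSum_wt hε)
  have s4 : HasSum (fun v => η * wt ε v + M * (wt ε v * ψ v)) (η * 1 + M * ∑' v, wt ε v * ψ v) :=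
    (s3.mul_left η).add (s2.hasSum.mul_left M)
  rw [mul_one] at s4
  rw [← s4.tsum_eq]
  refine s1.tsum_le_tsum (fun v => ?_) s4.summable
  have := mul_le_mul_of_nonneg_left (h v) (wt_nonneg hε v)
  rw [Complex.norm_real, Real.norm_eq_abs, abs_of_nonneg (h0 v)]
  linarith

end

/-- job FC2-TRANS -/
theorem t : StmTrans := by
  intro K _ _ r W Φ hW θ hD h S hS T hT hTW hlim x
  classical
  -- bounds
  obtain ⟨C1, hC1⟩ := isCompact_univ.exists_bound_of_continuousOn hT.continuousOn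
  set A : ℝ := ∑ s ∈ S, |s| with hA
  have hA0 : 0 ≤ A := Finset.sum_nonneg fun _ _ => abs_nonneg _
  have hh : ∀ v, ‖h v‖ ≤ A + 1 := by
    intro v
    have e1 : ‖h v‖ ^ 2 ≤ A := by
      have e2 : |‖h v‖ ^ 2| ≤ A :=
        Finset.single_le_sum (f := fun s : ℝ => |s|) (fun _ _ => abs_nonneg _) (hS v)
      exact (le_abs_self _).trans e2
    nlinarith [norm_nonneg (h v), sq_nonneg (‖h v‖ - 1)]
  set C : ℝ := max C1 (A + 1) with hC
  have hTC : ∀ y, ‖T y‖ ≤ C := fun y => (hC1 y (Set.mem_univ y)).trans (le_max_left _ _)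
  have hhC : ∀ v, ‖h v‖ ≤ C := fun v => (hh v).trans (le_max_right _ _)
  -- the test function
  let g : ℂ → ℝ := fun z => ∏ s ∈ S, (‖z‖ ^ 2 - s) ^ 2
  have hg : Continuous g := by
    refine continuous_finsetProd _ fun s _ => ?_
    fun_prop
  have hg0 : ∀ z, 0 ≤ g z := fun z => Finset.prod_nonneg fun _ _ => sq_nonneg _
  have hgS : ∀ z, g z = 0 ↔ ‖z‖ ^ 2 ∈ S := by
    intro z
    change (∏ s ∈ S, (‖z‖ ^ 2 - s) ^ 2) = 0 ↔ _
    rw [Finset.prod_eq_zero_iff]
    constructor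
    · rintro ⟨s, hs, h0⟩
      have : ‖z‖ ^ 2 - s = 0 := by simpa using h0
      have h1 : ‖z‖ ^ 2 = s := by linarith
      rw [h1]
      exact hs
    · intro hz
      exact ⟨_, hz, by simp⟩
  obtain ⟨G, hG⟩ := (isCompact_closedBall (0 : ℂ) C).exists_bound_of_continuousOn hg.continuousOn
  have hgG : ∀ v, g (T (θ v)) ≤ G := fun v => by
    have := hG (T (θ v)) (by simpa using hTC (θ v))
    exact (le_abs_self _).trans this
  -- the mean tends to zero
  have hz : Tendsto (cE fun v => ((g (T (θ v)) : ℝ) : ℂ)) (𝓝[>] 0) (𝓝 0) := by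
    rw [Metric.tendsto_nhds]
    intro ε0 hε0
    obtain ⟨M, hM0, hM⟩ := modulus hg C (half_pos hε0)
    have hre : Tendsto (fun ε => (cE (fun v => ((‖h v - T (θ v)‖ ^ 2 : ℝ) : ℂ)) ε).re)
        (𝓝[>] 0) (𝓝 0) := by
      have := (Complex.continuous_re.tendsto 0).comp hlim
      simpa [Function.comp_def] using this
    have hM2 : Tendsto (fun ε => ε0 / 2 +
        M * (cE (fun v => ((‖h v - T (θ v)‖ ^ 2 : ℝ) : ℂ)) ε).re) (𝓝[>] 0) (𝓝 (ε0 / 2 + M * 0)) :=
      (hre.const_mul M).const_add _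
    rw [mul_zero, add_zero] at hM2
    filter_upwards [good_ev (K := K), hM2.eventually (gt_mem_nhds (half_lt_self hε0))] with ε h1 h2
    rw [dist_zero_right]
    refine lt_of_le_of_lt ?_ h2
    refine cE_dom h1 (B1 := G) (B2 := (2 * C) ^ 2) (fun v => hg0 _) hgG (fun v => ?_) fun v => ?_
    · rw [abs_of_nonneg (by positivity)]
      refine pow_le_pow_left₀ (norm_nonneg _) ?_ 2
      refine (norm_sub_le _ _).trans ?_
      have := hhC v
      have := hTC (θ v)
      linarith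
    · have e1 := hM (h v) (T (θ v)) (hhC v) (hTC _)
      have e2 : g (h v) = 0 := (hgS _).2 (hS v)
      rw [e2, zero_sub, abs_neg, abs_of_nonneg (hg0 _)] at e1
      exact e1
  -- the law
  have hfc : Continuous fun y => ((g (T y) : ℝ) : ℂ) :=
    Complex.continuous_ofReal.comp (hg.comp hT)
  have hl := hD (fun y => ((g (T y) : ℝ) : ℂ)) hfc (fun w hw y => by rw [hTW w hw y])
  have h0 := tendsto_nhds_unique hl hz
  have hWf := hW.fin
  have hcard : (Nat.card W : ℂ)⁻¹ ≠ 0 := inv_ne_zero (Nat.cast_ne_zero.2 Nat.card_pos.ne')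
  have h1 := (mul_eq_zero.1 h0).resolve_left hcard
  have h2 : ∫ y, g (T y) * dens Φ y ∂(vol (Fin r)) = 0 := by
    have e : ∀ y, ((g (T y) : ℝ) : ℂ) * (dens Φ y : ℂ) = ((g (T y) * dens Φ y : ℝ) : ℂ) := by
      intro y
      push_cast
      ring
    simp only [e] at h1
    rw [integral_complex_ofReal] at h1
    exact_mod_cast h1
  have hgc : Continuous fun y => g (T y) := hg.comp hT
  have hint : Integrable (fun y => g (T y) * dens Φ y) (vol (Fin r)) :=
    integrable_cont_real _ (hgc.mul (continuous_dens Φ))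
  rw [integral_eq_zero_iff_of_nonneg (fun y => mul_nonneg (hg0 _) (dens_nonneg Φ y)) hint] at h2
  have h3 : (fun y => g (T y)) =ᵐ[vol (Fin r)] fun _ => 0 := by
    filter_upwards [h2, null_dens hW.ne_zero] with y hy hy'
    exact (mul_eq_zero.1 hy).resolve_right hy'.ne'
  have hop : (vol (Fin r)).IsOpenPosMeasure := by
    unfold vol
    infer_instance
  have h4 := (hgc.ae_eq_iff_eq (vol (Fin r)) continuous_const).1 h3
  exact (hgS _).1 (congrFun h4 x)

end Pool.Agent.Y689.FC2
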